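import Pool.Agent.Run7.h361.VU.P5c
import Pool.Agent.Run7.h260.VU.Iface

/-!
# Project VU (helper260), piece P5: wrapper
-/

set_option autoImplicit false

namespace Run7.h260.VU

theorem t_P5 : S_P5 := P5p.p5

end Run7.h260.VU
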