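import Pool.Agent.Run7.h260.VC.P5

/-!
# Project VU (helper260), piece P5: upper bound of the potential, term by term
-/

set_option autoImplicit false

namespace Run7.h260.VU.P5p

open Filter Topology Metric
open Run7.h260.VC
open scoped Real

lemma norm_ls_third : ‖ls (1 / 3)‖ < 7 / 10 := by
  have h1 := ls_real (1 / 3) (by norm_num) (by norm_num)
  rw [third_cast] at h1
  rw [h1, Complex.norm_real, Real.norm_eq_abs, sin_third]
  have h2 : 2 * (√3 / 2) = √3 := by ring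
  rw [h2]
  have h3 : (1 : ℝ) ≤ √3 := by
    rw [Real.one_le_sqrt]; norm_num
  have h4 : √3 ≤ 2 := by
    rw [Real.sqrt_le_left (by norm_num)]; norm_num
  rw [abs_of_nonneg (Real.log_nonneg h3)]
  have h5 : Real.log √3 ≤ Real.log 2 := Real.log_le_log (by linarith) h4
  have h6 := Real.log_two_lt_d9
  linarith

lemma ls_twothird : ls (2 / 3) = ls (1 / 3) := by
  rw [← ls_symm]
  congr 1
  norm_num

lemma norm_ls_twothird : ‖ls (2 / 3)‖ < 7 / 10 := by
  rw [ls_twothird]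
  exact norm_ls_third

lemma near_of (c : ℂ) (hc : c ∈ Bh) (h : ‖ls c‖ < 7 / 10) :
    ∃ δ : ℝ, 0 < δ ∧ ∀ z, ‖z - c‖ ≤ δ → z ∈ Bh ∧ ‖ls z‖ ≤ 7 / 10 := by
  have h1 : ∀ᶠ z in 𝓝 c, z ∈ Bh := Bh_open.mem_nhds hc
  have h2 : ∀ᶠ z in 𝓝 c, ‖ls z‖ < 7 / 10 :=
    (ls_hasDerivAt (Bh_re hc).1 (Bh_re hc).2).continuousAt.norm.eventually_lt_const h
  obtain ⟨δ, hδ, hb⟩ := Metric.nhds_basis_closedBall.eventually_iff.1 (h1.and h2)
  refine ⟨δ, hδ, fun z hz => ?_⟩
  have := hb (by rwa [mem_closedBall, dist_eq_norm] : z ∈ closedBall c δ)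
  exact ⟨this.1, this.2.le⟩

/-- vertical displacement -/
lemma vert {c δ : ℝ} (h : ∀ z : ℂ, ‖z - c‖ ≤ δ → z ∈ Bh ∧ ‖ls z‖ ≤ 7 / 10) {z : ℂ}
    (hz : ‖z - c‖ ≤ δ) : |(FF z).re - (FF (z.re : ℂ)).re| ≤ 7 / 10 * |z.im| := by
  have hz' : ‖(z.re : ℂ) - c‖ ≤ δ := by
    refine le_trans ?_ hz
    rw [← Complex.ofReal_sub, Complex.norm_real, Real.norm_eq_abs]
    have := Complex.abs_re_le_norm (z - c)
    simpa using this
  have h1 := Convex.norm_image_sub_le_of_norm_hasDerivWithin_le (𝕜 := ℂ) (f := FF) (f' := ls)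
    (s := closedBall (c : ℂ) δ) (C := 7 / 10) (x := (z.re : ℂ)) (y := z)
    (fun w hw => by
      rw [mem_closedBall, dist_eq_norm] at hw
      exact (FF_deriv (h w hw).1).hasDerivWithinAt)
    (fun w hw => by
      rw [mem_closedBall, dist_eq_norm] at hw
      exact (h w hw).2)
    (convex_closedBall _ _) (by rwa [mem_closedBall, dist_eq_norm])
    (by rwa [mem_closedBall, dist_eq_norm])
  have h2 : ‖z - (z.re : ℂ)‖ = |z.im| := by
    have : z - (z.re : ℂ) = (z.im : ℂ) * Complex.I := by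
      apply Complex.ext <;> simp
    rw [this, norm_mul, Complex.norm_I, mul_one, Complex.norm_real, Real.norm_eq_abs]
  rw [h2] at h1
  refine le_trans ?_ h1
  rw [← Complex.sub_re]
  exact Complex.abs_re_le_norm _

/-- second order in the axis variable -/
lemma axis {δ K : ℝ} (h : ∀ z : ℂ, ‖z - 1 / 3‖ ≤ δ → z ∈ Bh)
    (hK : ∀ z w : ℂ, ‖z - 1 / 3‖ ≤ δ → ‖w - 1 / 3‖ ≤ δ → ‖ls z - ls w‖ ≤ K * ‖z - w‖)
    {B ξ : ℂ} (hB : ‖B - 1 / 3‖ ≤ δ / 2) (hξ : ‖ξ‖ ≤ δ / 2) :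
    ‖FF (B + ξ) + FF (B - ξ) - 2 * FF B‖ ≤ 2 * |K| * ‖ξ‖ ^ 2 := by
  have hp : ∀ w : ℂ, ‖w‖ ≤ δ / 2 → ‖B + w - 1 / 3‖ ≤ δ := fun w hw => by
    have e : B + w - 1 / 3 = (B - 1 / 3) + w := by ring
    rw [e]
    exact (norm_add_le _ _).trans (by linarith)
  have hm : ∀ w : ℂ, ‖w‖ ≤ δ / 2 → ‖B - w - 1 / 3‖ ≤ δ := fun w hw => by
    have e : B - w - 1 / 3 = (B - 1 / 3) - w := by ring
    rw [e]
    exact (norm_sub_le _ _).trans (by linarith)
  have h1 := Convex.norm_image_sub_le_of_norm_hasDerivWithin_le (𝕜 := ℂ)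
    (f := fun w => FF (B + w) + FF (B - w)) (f' := fun w => ls (B + w) - ls (B - w))
    (s := closedBall (0 : ℂ) ‖ξ‖) (C := 2 * |K| * ‖ξ‖) (x := 0) (y := ξ)
    (fun w hw => by
      rw [mem_closedBall, dist_zero_right] at hw
      have a1 : HasDerivAt (fun w => FF (B + w)) (ls (B + w)) w := by
        have := (FF_deriv (h _ (hp w (hw.trans hξ)))).comp w ((hasDerivAt_id w).const_add B)
        simpa [Function.comp_def] using this
      have a2 : HasDerivAt (fun w => FF (B - w)) (-ls (B - w)) w := by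
        have := (FF_deriv (h _ (hm w (hw.trans hξ)))).comp w ((hasDerivAt_id w).const_sub B)
        simpa [Function.comp_def] using this
      have h3 : HasDerivAt (fun w => FF (B + w) + FF (B - w)) (ls (B + w) + -ls (B - w)) w :=
        a1.add a2
      rw [← sub_eq_add_neg] at h3
      exact h3.hasDerivWithinAt)
    (fun w hw => by
      rw [mem_closedBall, dist_zero_right] at hw
      refine (hK _ _ (hp w (hw.trans hξ)) (hm w (hw.trans hξ))).trans ?_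
      have e : B + w - (B - w) = 2 * w := by ring
      rw [e, norm_mul, Complex.norm_ofNat]
      have : K * (2 * ‖w‖) ≤ |K| * (2 * ‖ξ‖) :=
        mul_le_mul (le_abs_self K) (by linarith) (by positivity) (abs_nonneg _)
      linarith)
    (convex_closedBall _ _) (by simp) (by simp)
  simp only [add_zero, sub_zero] at h1
  have e : FF (B + ξ) + FF (B - ξ) - 2 * FF B = FF (B + ξ) + FF (B - ξ) - (FF B + FF B) := by ring
  rw [e]
  refine h1.trans (le_of_eq ?_)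
  ring

lemma unif {p : ℝ → Prop} (h : ∀ᶠ s : ℝ in 𝓝 0, p s) : ∃ δ : ℝ, 0 < δ ∧ ∀ s, |s| ≤ δ → p s := by
  obtain ⟨δ, hδ, hb⟩ := Metric.nhds_basis_closedBall.eventually_iff.1 h
  exact ⟨δ, hδ, fun s hs => hb (by rwa [mem_closedBall, Real.dist_eq, sub_zero])⟩

/-- one term -/
lemma term_bd : ∃ δ K : ℝ, 0 < δ ∧ δ ≤ 1 / 1000000 ∧ 0 < K ∧ ∀ a a' b ξ : ℂ, ‖a‖ ≤ δ → ‖a'‖ ≤ δ →
    ‖b‖ ≤ δ → ‖ξ‖ ≤ δ → (qt (1 / 3 + a) (1 / 3 + a') (1 / 3 + b) ξ).re ≤
      -6 * (FF ((1 / 3 : ℝ) : ℂ)).re + Ll * (a'.re - a.re) - a.re ^ 2 - b.re ^ 2 +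
        7 / 10 * (3 * |a.im| + |a'.im| + 4 * |b.im|) + 53 / 50 * (|a'.im| + |a.im|) +
        1 / 10 * |b.im| + K * ‖ξ‖ ^ 2 := by
  obtain ⟨δ₁, hδ₁, h₁⟩ := near_of (1 / 3) third_mem norm_ls_third
  obtain ⟨δ₂, hδ₂, h₂⟩ := near_of (2 / 3) twothird_mem norm_ls_twothird
  obtain ⟨δ₃, hδ₃, h₃⟩ := unif FF_third_min
  obtain ⟨δ₄, hδ₄, h₄⟩ := unif FF_twothird_max
  obtain ⟨K, hK0, hK⟩ := ls_lip
  set δ := min (min (δ₁ / 2) (δ₂ / 2)) (min (min δ₃ (δ₄ / 2)) (1 / 1000000)) with hδ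
  have d1 : δ ≤ δ₁ / 2 := (min_le_left _ _).trans (min_le_left _ _)
  have d2 : δ ≤ δ₂ / 2 := (min_le_left _ _).trans (min_le_right _ _)
  have d3 : δ ≤ δ₃ := (min_le_right _ _).trans ((min_le_left _ _).trans (min_le_left _ _))
  have d4 : δ ≤ δ₄ / 2 := (min_le_right _ _).trans ((min_le_left _ _).trans (min_le_right _ _))
  have d5 : δ ≤ 1 / 1000000 := (min_le_right _ _).trans (min_le_right _ _)
  have hδ0 : 0 < δ := by rw [hδ]; positivity
  refine ⟨δ, 4 * K, hδ0, d5, by positivity, fun a a' b ξ ha ha' hb hξ => ?_⟩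
  have hK0' : |K| = K := abs_of_pos hK0
  have hKK : ∀ z w : ℂ, ‖z - 1 / 3‖ ≤ 2 * δ → ‖w - 1 / 3‖ ≤ 2 * δ →
      ‖ls z - ls w‖ ≤ K * ‖z - w‖ := by
    have hm : ∀ z : ℂ, ‖z - 1 / 3‖ ≤ 2 * δ → z ∈ K0 := fun z hz => by
      unfold K0
      rw [mem_closedBall, dist_eq_norm]
      have e : z - 5 / 12 = (z - 1 / 3) + ((-(1 / 12) : ℝ) : ℂ) := by push_cast; ring
      rw [e]
      refine (norm_add_le _ _).trans ?_
      rw [Complex.norm_real, Real.norm_eq_abs, abs_neg, abs_of_pos (by norm_num)]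
      linarith
    exact fun z w hz hw => hK z (hm z hz) w (hm w hw)
  have c3 : ((1 / 3 : ℝ) : ℂ) = 1 / 3 := third_cast
  have c23 : ((2 / 3 : ℝ) : ℂ) = 2 / 3 := twothird_cast
  have re_le : ∀ z : ℂ, ‖z‖ ≤ δ → |z.re| ≤ δ := fun z hz => (Complex.abs_re_le_norm z).trans hz
  -- upper terms
  have up : ∀ u v : ℂ, ‖u‖ ≤ δ → ‖v‖ ≤ δ → (FF ((1 / 3 + u) + (1 / 3 + v))).re ≤
      -(FF ((1 / 3 : ℝ) : ℂ)).re + Ll * (u.re + v.re) - (u.re + v.re) ^ 2 / 2 +
        7 / 10 * (|u.im| + |v.im|) := by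
    intro u v hu hv
    have e : (1 / 3 + u) + (1 / 3 + v) - ((2 / 3 : ℝ) : ℂ) = u + v := by push_cast; ring
    have hz : ‖(1 / 3 + u) + (1 / 3 + v) - ((2 / 3 : ℝ) : ℂ)‖ ≤ δ₂ := by
      rw [e]
      exact (norm_add_le _ _).trans (by linarith)
    have h5 := vert (c := 2 / 3) (δ := δ₂) (fun z hz => h₂ z (by rwa [c23] at hz)) hz
    have er : ((1 / 3 + u) + (1 / 3 + v)).re = 2 / 3 + (u.re + v.re) := by
      simp only [Complex.add_re]
      norm_num
      ring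
    have ei : ((1 / 3 + u) + (1 / 3 + v)).im = u.im + v.im := by
      simp only [Complex.add_im]
      norm_num
    rw [er, ei] at h5
    have h6 := h₄ (u.re + v.re) (by
      have := abs_add_le u.re v.re
      have := re_le u hu
      have := re_le v hv
      linarith)
    have h7 := (abs_le.1 h5).2
    have h8 := abs_add_le u.im v.im
    linarith
  -- lower terms
  have lo : ∀ u : ℂ, ‖u‖ ≤ δ → -(FF ((1 / 3 + u) + ξ) + FF ((1 / 3 + u) - ξ)).re ≤
      -2 * (FF ((1 / 3 : ℝ) : ℂ)).re - 2 * (Ll * u.re) - u.re ^ 2 + 7 / 10 * (2 * |u.im|) +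
        2 * K * ‖ξ‖ ^ 2 := by
    intro u hu
    have hu' : ‖1 / 3 + u - 1 / 3‖ ≤ 2 * δ / 2 := by
      have : (1 / 3 + u - 1 / 3 : ℂ) = u := by ring
      rw [this]
      linarith
    have h5 := axis (δ := 2 * δ) (K := K) (fun z hz => (h₁ z (by linarith)).1) hKK hu'
      (by linarith : ‖ξ‖ ≤ 2 * δ / 2)
    rw [hK0'] at h5
    have h6 : |(FF (1 / 3 + u + ξ) + FF (1 / 3 + u - ξ) - 2 * FF (1 / 3 + u)).re| ≤
        2 * K * ‖ξ‖ ^ 2 := (Complex.abs_re_le_norm _).trans h5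
    have e : (2 * FF (1 / 3 + u)).re = 2 * (FF (1 / 3 + u)).re := by simp
    rw [Complex.sub_re, e] at h6
    have h7 := (abs_le.1 h6).1
    have h8 := vert (c := 1 / 3) (δ := δ₁) (fun z hz => h₁ z (by rwa [c3] at hz))
      (z := 1 / 3 + u) (by
        have : (1 / 3 + u - ((1 / 3 : ℝ) : ℂ)) = u := by rw [c3]; ring
        rw [this]
        linarith)
    have er : (1 / 3 + u).re = 1 / 3 + u.re := by
      simp only [Complex.add_re]
      norm_num
    have ei : (1 / 3 + u).im = u.im := by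
      simp only [Complex.add_im]
      norm_num
    rw [er, ei] at h8
    have h9 := (abs_le.1 h8).1
    have h10 := h₃ u.re ((re_le u hu).trans d3)
    linarith
  have i1 := up a b ha hb
  have i2 := up a' b ha' hb
  have i3 := lo b hb
  have i4 := lo a ha
  -- the linear term
  have i5 : (π * Complex.I * ((1 / 3 + a') - (1 / 3 + a)) * (1 / 3 + b)).re ≤
      53 / 50 * (|a'.im| + |a.im|) + 1 / 10 * |b.im| := by
    have e : (π * Complex.I * ((1 / 3 + a') - (1 / 3 + a)) * (1 / 3 + b)).re =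
        -(π * ((a'.im - a.im) * (1 / 3 + b.re) + (a'.re - a.re) * b.im)) := by
      have e1 : ((1 / 3 + a') - (1 / 3 + a) : ℂ) = a' - a := by ring
      have e2 : (1 / 3 + b : ℂ).re = 1 / 3 + b.re := by
        simp only [Complex.add_re]
        norm_num
      have e3 : (1 / 3 + b : ℂ).im = b.im := by
        simp only [Complex.add_im]
        norm_num
      rw [e1, mul_assoc, mul_assoc, Complex.re_ofReal_mul, Complex.I_mul_re, Complex.mul_im, e2,
        e3, Complex.sub_im, Complex.sub_re]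
      ring
    rw [e]
    have hπ := Real.pi_lt_d2
    have hπ0 := Real.pi_pos
    have q1 : |(a'.im - a.im) * (1 / 3 + b.re)| ≤ (|a'.im| + |a.im|) * (1 / 3 + 1 / 1000000) := by
      rw [abs_mul]
      refine mul_le_mul (abs_sub _ _) ?_ (abs_nonneg _) (by positivity)
      have := re_le b hb
      rw [abs_le] at this ⊢
      constructor <;> linarith [this.1, this.2]
    have q2 : |(a'.re - a.re) * b.im| ≤ 1 / 100 * |b.im| := by
      rw [abs_mul]
      refine mul_le_mul_of_nonneg_right ?_ (abs_nonneg _)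
      have := re_le a ha
      have := re_le a' ha'
      have := abs_sub a'.re a.re
      linarith
    have q3 : |(a'.im - a.im) * (1 / 3 + b.re) + (a'.re - a.re) * b.im| ≤
        (|a'.im| + |a.im|) * (1 / 3 + 1 / 1000000) + 1 / 100 * |b.im| :=
      (abs_add_le _ _).trans (add_le_add q1 q2)
    have q4 := neg_abs_le ((a'.im - a.im) * (1 / 3 + b.re) + (a'.re - a.re) * b.im)
    have p1 : 0 ≤ |a'.im| + |a.im| := by positivity
    have p2 : 0 ≤ |b.im| := abs_nonneg _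
    have q5 : -(π * ((a'.im - a.im) * (1 / 3 + b.re) + (a'.re - a.re) * b.im)) ≤
        π * ((|a'.im| + |a.im|) * (1 / 3 + 1 / 1000000) + 1 / 100 * |b.im|) := by
      rw [← mul_neg]
      refine mul_le_mul_of_nonneg_left ?_ hπ0.le
      linarith
    refine q5.trans ?_
    have q6 : π * ((|a'.im| + |a.im|) * (1 / 3 + 1 / 1000000) + 1 / 100 * |b.im|) ≤
        3.15 * ((|a'.im| + |a.im|) * (1 / 3 + 1 / 1000000) + 1 / 100 * |b.im|) :=
      mul_le_mul_of_nonneg_right hπ.le (by positivity)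
    refine q6.trans ?_
    nlinarith
  have hq : (qt (1 / 3 + a) (1 / 3 + a') (1 / 3 + b) ξ).re =
      (π * Complex.I * ((1 / 3 + a') - (1 / 3 + a)) * (1 / 3 + b)).re +
        (FF ((1 / 3 + a) + (1 / 3 + b))).re + (FF ((1 / 3 + a') + (1 / 3 + b))).re +
        -(FF ((1 / 3 + b) + ξ) + FF ((1 / 3 + b) - ξ)).re +
        -(FF ((1 / 3 + a) + ξ) + FF ((1 / 3 + a) - ξ)).re := by
    unfold qt
    simp only [Complex.add_re, Complex.sub_re]
    ring
  rw [hq]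
  nlinarith [sq_nonneg (a.re + b.re), sq_nonneg (a'.re + b.re)]

theorem p5 : ∃ δ L : ℝ, 0 < δ ∧ δ ≤ 1 / 1000000 ∧ 0 < L ∧ ∀ (n : ℕ) [NeZero n]
    (x : Ix n → ℂ), (∀ j, ‖x j‖ ≤ δ) → (Qp n x).re ≤ 6 * n * GapVol.lob (π / 3) / π -
      ∑ j ∈ Sv n, (x j).re ^ 2 + 5 * ∑ j ∈ Sv n, |(x j).im| + L * n * ‖x none‖ ^ 2 := by
  obtain ⟨δ, K, hδ, hδ1, hK, h⟩ := term_bd
  refine ⟨δ, K, hδ, hδ1, hK, fun n _ x hx => ?_⟩
  have hξ : ‖Xv x‖ ≤ ‖x none‖ := by
    unfold Xv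
    rw [norm_div]
    refine div_le_self (norm_nonneg _) ?_
    rw [norm_mul, Complex.norm_ofNat, Complex.norm_real, Real.norm_of_nonneg Real.pi_pos.le]
    linarith [Real.pi_gt_three]
  have hterm : ∀ r : Fin n, (qt (Av x r) (Av x (r + 1)) (Bv x r) (Xv x)).re ≤
      -6 * (FF ((1 / 3 : ℝ) : ℂ)).re + Ll * ((x (ai (r + 1))).re - (x (ai r)).re) -
        (x (ai r)).re ^ 2 - (x (bi r)).re ^ 2 +
        7 / 10 * (3 * |(x (ai r)).im| + |(x (ai (r + 1))).im| + 4 * |(x (bi r)).im|) +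
        53 / 50 * (|(x (ai (r + 1))).im| + |(x (ai r)).im|) +
        1 / 10 * |(x (bi r)).im| + K * ‖x none‖ ^ 2 := by
    intro r
    have h1 := h (x (ai r)) (x (ai (r + 1))) (x (bi r)) (Xv x) (hx _) (hx _) (hx _)
      (hξ.trans (hx none))
    have h2 : K * ‖Xv x‖ ^ 2 ≤ K * ‖x none‖ ^ 2 := by gcongr
    have h3 : qt (Av x r) (Av x (r + 1)) (Bv x r) (Xv x) =
      qt (1 / 3 + x (ai r)) (1 / 3 + x (ai (r + 1))) (1 / 3 + x (bi r)) (Xv x) := rfl
    rw [h3]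
    linarith
  have hre : (Qp n x).re = ∑ r : Fin n, (qt (Av x r) (Av x (r + 1)) (Bv x r) (Xv x)).re := by
    unfold Qp
    rw [Complex.re_sum]
  rw [hre]
  refine (Finset.sum_le_sum fun r _ => hterm r).trans ?_
  have hF : (FF ((1 / 3 : ℝ) : ℂ)).re = -(GapVol.lob (π / 3) / π) := by
    have h1 := FF_lob (x := 1 / 3) (by norm_num) (by norm_num)
    rw [show π * (1 / 3) = π / 3 by ring] at h1
    rw [h1, Complex.ofReal_re]
  have hS : ∀ f : Ix n → ℝ, ∑ j ∈ Sv n, f j = ∑ r, f (ai r) + ∑ r, f (bi r) := by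
    intro f
    have h1 : ∑ j ∈ Sv n, f j + f none = ∑ j, f j := by
      unfold Sv
      exact Finset.sum_erase_add _ _ (Finset.mem_univ _)
    have h2 := sum_Ix f
    linarith
  have hshr : ∑ r : Fin n, (x (ai (r + 1))).re = ∑ r : Fin n, (x (ai r)).re :=
    Equiv.sum_comp (Equiv.addRight (1 : Fin n)) fun r => (x (ai r)).re
  have hshi : ∑ r : Fin n, |(x (ai (r + 1))).im| = ∑ r : Fin n, |(x (ai r)).im| :=
    Equiv.sum_comp (Equiv.addRight (1 : Fin n)) fun r => |(x (ai r)).im|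
  rw [hS, hS]
  simp only [Finset.sum_add_distrib, Finset.sum_sub_distrib, ← Finset.mul_sum, hshr, hshi,
    Finset.sum_const, Finset.card_univ, Fintype.card_fin, nsmul_eq_mul, hF]
  have p1 : 0 ≤ ∑ r : Fin n, |(x (ai r)).im| := Finset.sum_nonneg fun _ _ => abs_nonneg _
  have p2 : 0 ≤ ∑ r : Fin n, |(x (bi r)).im| := Finset.sum_nonneg fun _ _ => abs_nonneg _
  have e : (n : ℝ) * (-6 * -(GapVol.lob (π / 3) / π)) = 6 * n * GapVol.lob (π / 3) / π := by ring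
  have e2 : (n : ℝ) * (K * ‖x none‖ ^ 2) = K * n * ‖x none‖ ^ 2 := by ring
  linarith

end Run7.h260.VU.P5p
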